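import Pool.Agent.H.MP_420e77_co.G

namespace Pool.Agent.Results.MP_420e77_co.No

open Pool.Agent.H.MP_420e77_co Pool.Agent.Lib.helper5.Book

theorem result : ∃ (W : Type) (_ : Finite W) (H : SimpleGraph W) (v : W), Planar H ∧
    (∃ w, Forces H w) ∧ (∃ w, Forces (pend H v) w) ∧ f (pend H v) = f H ∧
      f (pend H v) ≠ f H + 1 := by
  obtain ⟨s, hs⟩ : ∃ s, s = (2 ^ 70 * 2 ^ 30) ^ 2 := ⟨_, rfl⟩
  obtain ⟨i, ⟨w, h1⟩, h2, h3⟩ := chain (t := 417501) (s := s) (fun V _ G h => by
    by_contra c
    have : tw G ≤ s + 4 * 417501 := Nat.sInf_le (upper (j := 201) (by norm_num) hs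
      (by rw [hs]; norm_num) (by norm_num) _ le_rfl G c).dec
    omega) fun w h => by
      by_contra c
      have := count trifree c4free (h _ G0 (le_trans (by omega) lower))
      rw [cardV] at this
      omega
  have e : f (pend (HH 417501 i) (.inr none)) = f (HH 417501 i) := by
    rw [← h3]
    simp only [f, Forces, pend_iff]
  exact ⟨_, inferInstance, _, .inr none, planar _ i, h2, ⟨w, fun V _ G h => pend_iff.2 (h1 V G h)⟩,
    e, by omega⟩

end Pool.Agent.Results.MP_420e77_co.No
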